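import Mathlib
import Pool.Agent.H8.CurseOne

set_option autoImplicit false
open MeasureTheory Set Filter

namespace Pool.Agent.Results.MP_4b7d36_an.CurseL1

open Classical in
/-- the local discrepancy `#{k : x_k ∈ [0,t)}/N - t_1 ⋯ t_d` -/
noncomputable def localDisc {d N : ℕ} (x : Fin N → Fin d → ℝ) (t : Fin d → ℝ) : ℝ :=
  ((Finset.univ.filter fun k => ∀ i, x k i ∈ Ico 0 (t i)).card : ℝ) / N - ∏ i, t i

/-- the `L_1`-discrepancy of the points `x_1, …, x_N` -/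
noncomputable def L1 {d N : ℕ} (x : Fin N → Fin d → ℝ) : ℝ :=
  ∫ t in Icc (0 : Fin d → ℝ) 1, |localDisc x t|

/-- the minimal `L_1`-discrepancy of `N` points in `[0,1)^d` -/
noncomputable def disc (N d : ℕ) : ℝ :=
  ⨅ x : {x : Fin N → Fin d → ℝ // ∀ k i, x k i ∈ Ico (0 : ℝ) 1}, L1 x.1

theorem result : ∃ C : ℝ, 1 < C ∧ ∃ e₀ ∈ Ioo (0 : ℝ) 1, ∀ᶠ d : ℕ in atTop,
    ∀ e ∈ Ioo (0 : ℝ) e₀, ∀ N : ℕ, disc N d ≤ e * (1 / 2) ^ d → C ^ d ≤ N := by
  obtain ⟨D, hD⟩ := Pool.Agent.H8.CurseOne.curse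
  refine ⟨1.004, by norm_num, 1 / 2, by norm_num, eventually_atTop.mpr ⟨D, fun d hd e he N h => ?_⟩⟩
  by_contra hN
  push Not at hN
  have : Nonempty {x : Fin N → Fin d → ℝ // ∀ k i, x k i ∈ Ico (0 : ℝ) 1} :=
    ⟨⟨0, fun k i => by simp⟩⟩
  have key : 1 / 2 * (1 / 2 : ℝ) ^ d ≤ disc N d := by
    refine le_ciInf fun x => ?_
    have := hD d hd N hN x.1 (fun _ => 1 / N) (fun k i => ⟨(x.2 k i).1, (x.2 k i).2.le⟩)
      fun _ => by positivity
    refine this.trans (le_of_eq ?_)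
    unfold L1 localDisc
    congr 2
    ext t
    congr 2
    rw [← Finset.mul_sum, Finset.sum_boole, mul_comm, mul_one_div]
    congr 3
    ext k
    simp only [Finset.mem_filter, Finset.mem_univ, true_and]
    exact forall_congr' fun i => ⟨fun h => ⟨(x.2 k i).1, h⟩, fun h => h.2⟩
  have : (0 : ℝ) < (1 / 2) ^ d := by positivity
  nlinarith [he.2]

end Pool.Agent.Results.MP_4b7d36_an.CurseL1
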